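import Pool.Agent.W937.FG.Stm

/-!
Project FG: the amplification run.
-/

set_option autoImplicit false

namespace Pool.Agent.W397.FG

open Function Pool.Agent.W937.FG

variable {T : Type} {e : Bool}

theorem seq' {p q : Prog T Reg} {s t u : Reg → ℕ} (h1 : Exec e p s [] t)
    (h2 : Exec e q t [] u) : Exec e (.seq p q) s [] u := Exec.seq h1 h2

theorem star_cons' {p : Prog T Reg} {s t u : Reg → ℕ} (h1 : Exec e p s [] t)
    (h2 : Exec e (.star p) t [] u) : Exec e (.star p) s [] u := Exec.star_cons h1 h2

theorem star_trans {p : Prog T Reg} {s t u : Reg → ℕ} {w x : List T}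
    (h1 : Exec e (.star p) s w t) (h2 : Exec e (.star p) t x u) :
    Exec e (.star p) s (w ++ x) u := by
  generalize hq : Prog.star p = q at h1
  induction h1 with
  | op h => cases hq
  | seq h1 h2 => cases hq
  | altl h => cases hq
  | altr h => cases hq
  | star_nil => cases hq; exact h2
  | star_cons ha hb iha ihb =>
    rw [List.append_assoc]
    cases hq
    exact Exec.star_cons ha (ihb h2 rfl)

theorem star_trans' {p : Prog T Reg} {s t u : Reg → ℕ}
    (h1 : Exec e (.star p) s [] t) (h2 : Exec e (.star p) t [] u) :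
    Exec e (.star p) s [] u := star_trans h1 h2

theorem star_one {p : Prog T Reg} {s t : Reg → ℕ} (h1 : Exec e p s [] t) :
    Exec e (.star p) s [] t := star_cons' h1 Exec.star_nil

theorem up_N (n t : ℕ) (a r : ℕ → ℕ) (y : ℕ) : update (st n t a r) .N y = st y t a r := by
  funext x; cases x <;> simp [update, st]

theorem up_T (n t : ℕ) (a r : ℕ → ℕ) (y : ℕ) : update (st n t a r) .T y = st n y a r := by
  funext x; cases x <;> simp [update, st]

theorem up_A (n t : ℕ) (a r : ℕ → ℕ) (j y : ℕ) :
    update (st n t a r) (.A j) y = st n t (update a j y) r := by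
  funext x
  cases x with
  | N => simp [update, st]
  | T => simp [update, st]
  | M i => simp [update, st]
  | A i =>
    by_cases h : i = j
    · subst h; simp [st]
    · rw [update_of_ne (by simpa using h)]
      simp [st, update_of_ne h]

theorem incN (n t : ℕ) (a r : ℕ → ℕ) :
    Exec e (incP T .N) (st n t a r) [] (st (n + 1) t a r) :=
  Exec.op ⟨rfl, by rw [up_N]; rfl⟩

theorem incT (n t : ℕ) (a r : ℕ → ℕ) :
    Exec e (incP T .T) (st n t a r) [] (st n (t + 1) a r) :=
  Exec.op ⟨rfl, by rw [up_T]; rfl⟩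

theorem incA (n t : ℕ) (a r : ℕ → ℕ) (j : ℕ) :
    Exec e (incP T (.A j)) (st n t a r) [] (st n t (update a j (a j + 1)) r) :=
  Exec.op ⟨rfl, by rw [up_A]; rfl⟩

theorem decN (n t : ℕ) (a r : ℕ → ℕ) :
    Exec e (decP T .N) (st (n + 1) t a r) [] (st n t a r) :=
  Exec.op ⟨rfl, Or.inl ⟨Nat.succ_pos n, by rw [up_N]; rfl⟩⟩

theorem decT (n t : ℕ) (a r : ℕ → ℕ) :
    Exec e (decP T .T) (st n (t + 1) a r) [] (st n t a r) :=
  Exec.op ⟨rfl, Or.inl ⟨Nat.succ_pos t, by rw [up_T]; rfl⟩⟩

theorem decA (n t : ℕ) (a r : ℕ → ℕ) (j c : ℕ) (h : a j = c + 1) :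
    Exec e (decP T (.A j)) (st n t a r) [] (st n t (update a j c) r) :=
  Exec.op ⟨rfl, Or.inl ⟨by show 0 < a j; omega, by
    rw [up_A]
    show st n t (update a j c) r = st n t (update a j (a j - 1)) r
    rw [h]; rfl⟩⟩

theorem zerN (t : ℕ) (a r : ℕ → ℕ) : Exec e (zeroP T .N) (st 0 t a r) [] (st 0 t a r) :=
  Exec.op ⟨rfl, rfl, rfl⟩

theorem zerT (n : ℕ) (a r : ℕ → ℕ) : Exec e (zeroP T .T) (st n 0 a r) [] (st n 0 a r) :=
  Exec.op ⟨rfl, rfl, rfl⟩

theorem zerA (n t : ℕ) (a r : ℕ → ℕ) (j : ℕ) (h : a j = 0) :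
    Exec e (zeroP T (.A j)) (st n t a r) [] (st n t a r) :=
  Exec.op ⟨rfl, h, rfl⟩

theorem zeroA_run (n t : ℕ) (a r : ℕ → ℕ) (m : ℕ) (h : ∀ i < m, a i = 0) :
    Exec e (zeroA T m) (st n t a r) [] (st n t a r) := by
  induction m with
  | zero => exact Exec.op ⟨rfl, rfl⟩
  | succ m ih => exact seq' (ih fun i hi => h i (by omega)) (zerA n t a r m (h m (by omega)))

theorem altP_run {p : ℕ → Prog T Reg} {s u : Reg → ℕ} {w : List T} {j k : ℕ} (hj : j ≤ k)
    (h : Exec e (p j) s w u) : Exec e (altP T p k) s w u := by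
  induction k with
  | zero =>
    obtain rfl : j = 0 := by omega
    exact h
  | succ k ih =>
    by_cases hjk : j ≤ k
    · exact Exec.altl (ih hjk)
    · obtain rfl : j = k + 1 := by omega
      exact Exec.altr h

theorem loop1 (n t : ℕ) (a r : ℕ → ℕ) (j : ℕ) :
    Exec e (.star (.seq (decP T .N) (.seq (incP T .T) (incP T (.A j))))) (st n t a r) []
      (st 0 (t + n) (update a j (a j + n)) r) := by
  induction n generalizing t a with
  | zero =>
    rw [Nat.add_zero, Nat.add_zero, update_eq_self]
    exact Exec.star_nil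
  | succ n ih =>
    have h1 := ih (t + 1) (update a j (a j + 1))
    rw [update_idem, update_self] at h1
    have e1 : t + 1 + n = t + (n + 1) := by omega
    have e2 : a j + 1 + n = a j + (n + 1) := by omega
    rw [e1, e2] at h1
    exact star_cons' (seq' (decN n t a r) (seq' (incT n t a r) (incA n (t + 1) a r j))) h1

theorem loop2 (n t : ℕ) (a r : ℕ → ℕ) :
    Exec e (.star (.seq (decP T .T) (incP T .N))) (st n t a r) [] (st (n + t) 0 a r) := by
  induction t generalizing n with
  | zero => exact Exec.star_nil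
  | succ t ih =>
    have h1 := ih (n + 1)
    have e1 : n + 1 + t = n + (t + 1) := by omega
    rw [e1] at h1
    exact star_cons' (seq' (decT n t a r) (incN n t a r)) h1

theorem sweep_run (n : ℕ) (a r : ℕ → ℕ) (j : ℕ) :
    Exec e (sweep T (incP T (.A j))) (st n 0 a r) [] (st n 0 (update a j (a j + n)) r) := by
  have h1 := loop1 (T := T) (e := e) n 0 a r j
  have h2 := loop2 (T := T) (e := e) 0 n (update a j (a j + n)) r
  rw [Nat.zero_add] at h1 h2
  exact seq' h1 (seq' (zerN _ _ _) (seq' h2 (zerT _ _ _)))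

theorem SM_run (n : ℕ) (a r : ℕ → ℕ) (j c : ℕ) (h0 : ∀ i < j + 1, a i = 0)
    (hc : a (j + 1) = c + 1) :
    Exec e (SM T (j + 1)) (st n 0 a r) []
      (st n 0 (update (update a (j + 1) c) j (n + 1)) r) := by
  have h1 := sweep_run (T := T) (e := e) n (update a (j + 1) c) r j
  have e0 : update a (j + 1) c j = 0 := by
    rw [update_of_ne (by omega)]
    exact h0 j (by omega)
  rw [e0, Nat.zero_add] at h1
  have h2 := incA (T := T) (e := e) n 0 (update (update a (j + 1) c) j n) r j
  rw [update_idem, update_self] at h2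
  exact seq' (zeroA_run n 0 a r (j + 1) h0) (seq' (decA n 0 a r (j + 1) c hc) (seq' h1 h2))

theorem claim (k : ℕ) (r : ℕ → ℕ) (j : ℕ) (hj : j ≤ k) :
    ∀ (n : ℕ) (a : ℕ → ℕ) (c : ℕ), (∀ i < j, a i = 0) → a j = c + 1 →
      Exec e (Sall T k) (st n 0 a r) [] (st (F j n) 0 (update a j c) r) := by
  induction j with
  | zero =>
    intro n a c _ hc
    refine star_one (altP_run (p := SM T) hj ?_)
    exact seq' (decA n 0 a r 0 c hc) (incN n 0 (update a 0 c) r)
  | succ j ih =>
    intro n a c h0 hc
    have ih' := ih (by omega)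
    have inner : ∀ (q m : ℕ) (b : ℕ → ℕ), (∀ i < j, b i = 0) → b j = q →
        Exec e (Sall T k) (st m 0 b r) [] (st ((F j)^[q] m) 0 (update b j 0) r) := by
      intro q
      induction q with
      | zero =>
        intro m b hb hq
        have : update b j 0 = b := by rw [← hq, update_eq_self]
        rw [this]
        exact Exec.star_nil
      | succ q ihq =>
        intro m b hb hq
        have h1 := ih' m b q hb hq
        have h2 := ihq (F j m) (update b j q) (fun i hi => by
          rw [update_of_ne (by omega)]; exact hb i hi) (by rw [update_self])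
        rw [update_idem] at h2
        exact star_trans' h1 h2
    have h1 := star_one (altP_run (p := SM T) (j := j + 1) hj (SM_run (e := e) n a r j c h0 hc))
    have h2 := inner (n + 1) n (update (update a (j + 1) c) j (n + 1)) (fun i hi => by
      rw [update_of_ne (by omega), update_of_ne (by omega)]
      exact h0 i (by omega)) (by rw [update_self])
    have e1 : update (update (update a (j + 1) c) j (n + 1)) j 0 = update a (j + 1) c := by
      rw [update_idem]
      have : (0 : ℕ) = update a (j + 1) c j := by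
        rw [update_of_ne (by omega)]
        exact (h0 j (by omega)).symm
      conv_lhs => rw [this]
      rw [update_eq_self]
    rw [e1] at h2
    exact star_trans' h1 h2

/-- AC1 -/
theorem main : PropAC1 := by
  intro T k n r
  have h := claim (T := T) (e := true) k r k le_rfl n (update (fun _ => 0) k 1) 0
    (fun i hi => by rw [update_of_ne (by omega)]) (by rw [update_self])
  rw [update_idem] at h
  have e1 : update (fun _ : ℕ => 0) k 0 = fun _ => 0 := by
    funext i
    by_cases hi : i = k
    · subst hi; rw [update_self]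
    · rw [update_of_ne hi]
  rw [e1] at h
  exact h

end Pool.Agent.W397.FG
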